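import Pool.Agent.QFano.PartD5

set_option autoImplicit false

/-!
# Automorphisms of prime order of `q`-analogs of the Fano plane
-/

namespace Pool.Agent.Results.MP_b24993_co.PrimeOrders

open Module Pool.Agent.QFano Polynomial

/-- Let `D` be a `2-(7,3,1)_q` design on `V` and let `g` be an automorphism of `D`, not a scalar,
with `g ^ r = c` a scalar, where `r` is a prime number which does not divide `q (q - 1)`. Let
`c = s ^ r` and let `n` be the dimension of the eigenspace of `s`. Then `n = 0` and `r` divides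
`1 + q + ... + q ^ 6`, or `n = 3` and `r` divides `q ^ 2 + 1`, or `n = 1` and `r` divides `q + 1` or
`q ^ 2 - q + 1`, or `n = 1`, `r` divides `q ^ 2 + q + 1` and `(g - s) p(g) = 0` for a monic cubic
polynomial `p`. -/
theorem result {K V : Type*} [Field K] [Finite K] [AddCommGroup V] [Module K V]
    (D : Set (Submodule K V)) (hD : IsQFano D) (g : End K V) (hg : IsAut D g)
    (hns : ∀ s : K, g ≠ algebraMap K (End K V) s) (r : ℕ) (hrp : r.Prime) (c : K)
    (hgr : g ^ r = algebraMap K (End K V) c) (hrq : ¬ (r : ℤ) ∣ (Nat.card K : ℤ))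
    (hrq1 : ¬ (r : ℤ) ∣ (Nat.card K : ℤ) - 1) :
    ∃ s : K, s ^ r = c ∧
    ((finrank K (LinearMap.ker (g - algebraMap K (End K V) s)) = 0 ∧
        (r : ℤ) ∣ ∑ i ∈ Finset.range 7, (Nat.card K : ℤ) ^ i) ∨
     (finrank K (LinearMap.ker (g - algebraMap K (End K V) s)) = 3 ∧
        (r : ℤ) ∣ (Nat.card K : ℤ) ^ 2 + 1) ∨
     (finrank K (LinearMap.ker (g - algebraMap K (End K V) s)) = 1 ∧
        ((r : ℤ) ∣ (Nat.card K : ℤ) + 1 ∨
         (r : ℤ) ∣ (Nat.card K : ℤ) ^ 2 - (Nat.card K : ℤ) + 1 ∨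
         ((r : ℤ) ∣ (Nat.card K : ℤ) ^ 2 + (Nat.card K : ℤ) + 1 ∧
          ∃ p : K[X], p.Monic ∧ p.natDegree = 3 ∧ aeval g ((X - C s) * p) = 0)))) := by
  have : FiniteDimensional K V := FiniteDimensional.of_finrank_pos (by rw [hD.dim]; norm_num)
  exact hD.primeOrder' hg hrp hgr hns (fun h => hrq (by exact_mod_cast h)) hrq1

end Pool.Agent.Results.MP_b24993_co.PrimeOrders
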